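import Mathlib

set_option autoImplicit false

open FirstOrder FirstOrder.Language

namespace Pool.Agent.Helper7.Isotypic

/-- The type of a tuple `a` of elements of an `L`-structure: the set of all first-order formulas
(with equality) in the variables `x_1, ..., x_n` that hold at `a`. -/
def tp (L : FirstOrder.Language.{0, 0}) {H : Type} [L.Structure H] {n : ℕ} (a : Fin n → H) :
    Set (L.Formula (Fin n)) := {φ | φ.Realize a}

/-- Isotypic structures: for every `n`, the same types of `n`-tuples are realized in both. -/
def Isotypic (L : FirstOrder.Language.{0, 0}) (H₁ H₂ : Type) [L.Structure H₁] [L.Structure H₂] :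
    Prop :=
  ∀ n : ℕ, (∀ a : Fin n → H₁, ∃ b : Fin n → H₂, tp L b = tp L a) ∧
    (∀ b : Fin n → H₂, ∃ a : Fin n → H₁, tp L a = tp L b)

end Pool.Agent.Helper7.Isotypic
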