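import Mathlib
import Pool.Agent.Helper7.Isotypic.Defs

set_option autoImplicit false

open FirstOrder FirstOrder.Language

namespace Pool.Agent.Helper7.Isotypic

/-- Four unary operation symbols. -/
inductive Fn : ℕ → Type
  | t : Fn 1
  | d : Fn 1
  | s : Fn 1
  | p : Fn 1

/-- The signature with the four unary operation symbols and no relation symbols. -/
def Lang : FirstOrder.Language.{0, 0} := ⟨Fn, fun _ => Empty⟩

/-- The nodes of the algebra. -/
inductive Nd : Type
  | sp (i k : ℤ) : Nd
  | ch (x : Nd) (k : ℤ) : Nd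
  deriving DecidableEq

namespace Nd

def dd (x : Nd) : Nd := ch x 0

def ss : Nd → Nd
  | sp i k => sp i (k + 1)
  | ch x k => ch x (k + 1)

def pp : Nd → Nd
  | sp i k => sp i (k - 1)
  | ch x k => ch x (k - 1)

def tt : Nd → Nd
  | sp i _ => sp (i + 1) 0
  | ch x _ => x

def idx : Nd → ℤ
  | sp i _ => i
  | ch x _ => idx x

/-- interpretation of the symbols -/
def op : ∀ {n : ℕ}, Fn n → (Fin n → Nd) → Nd
  | _, Fn.t, v => tt (v 0)
  | _, Fn.d, v => dd (v 0)
  | _, Fn.s, v => ss (v 0)
  | _, Fn.p, v => pp (v 0)

instance : Lang.Structure Nd where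
  funMap := fun f v => op f v
  RelMap := fun r _ => r.elim

/-- the position relative to the two chains of children of `sp (j+1) 0` -/
def pos (j n : ℤ) : Nd → Option ℤ
  | sp i c => if i = j then some (c + n) else none
  | ch x c => if x = sp (j + 1) 0 then some c else pos j n x

/-- swap the upper parts of the two chains -/
def FF (j n k : ℤ) : Nd → Nd
  | sp i c => if i = j ∧ k < c + n then ch (sp (j + 1) 0) (c + n) else sp i c
  | ch x c => if x = sp (j + 1) 0 then (if k < c then sp j (c - n) else ch x c)
      else ch (FF j n k x) c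

/-- `x` avoids the zone `(l, u]` -/
def Av (j n l u : ℤ) (x : Nd) : Prop := ∀ q, pos j n x = some q → q ≤ l ∨ u < q

lemma Av.mono {j n l u l' u' : ℤ} {x : Nd} (h : Av j n l u x) (hl : l ≤ l') (hu : u' ≤ u) :
    Av j n l' u' x := by
  intro q hq
  rcases h q hq with h | h
  · left; omega
  · right; omega

lemma FF_root (j n k : ℤ) : FF j n k (sp (j + 1) 0) = sp (j + 1) 0 := by
  simp [FF]

lemma FF_eq_root {j n k : ℤ} {x : Nd} : FF j n k x = sp (j + 1) 0 ↔ x = sp (j + 1) 0 := by
  cases x with
  | sp i c =>
    simp only [FF]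
    split_ifs with h
    · constructor
      · intro h'; exact absurd h' (by simp)
      · intro h'
        simp only [sp.injEq] at h'
        omega
    · rfl
  | ch x c =>
    simp only [FF]
    split_ifs with h1 h2
    · simp
    · simp
    · simp

lemma FF_FF (j n k : ℤ) (x : Nd) : FF j n k (FF j n k x) = x := by
  induction x with
  | sp i c =>
    simp only [FF]
    split_ifs with h
    · simp only [FF, if_true]
      rw [if_pos h.2, add_sub_cancel_right, h.1]
    · simp only [FF]
      rw [if_neg h]
  | ch x c ih =>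
    by_cases h1 : x = sp (j + 1) 0
    · subst h1
      simp only [FF, if_true]
      split_ifs with h2
      · simp only [FF, true_and]
        rw [if_pos (by omega), sub_add_cancel]
      · simp only [FF, if_true]
        rw [if_neg h2]
    · simp only [FF]
      rw [if_neg h1]
      simp only [FF]
      rw [if_neg (fun h => h1 (FF_eq_root.1 h)), ih]

lemma pos_FF (j n k : ℤ) (x : Nd) : pos j n (FF j n k x) = pos j n x := by
  induction x with
  | sp i c =>
    simp only [FF]
    split_ifs with h
    · simp [pos, h.1]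
    · rfl
  | ch x c ih =>
    by_cases h1 : x = sp (j + 1) 0
    · subst h1
      simp only [FF, if_true]
      split_ifs with h2
      · simp [pos]
      · rfl
    · simp only [FF]
      rw [if_neg h1]
      simp only [pos]
      rw [if_neg h1, if_neg (fun h => h1 (FF_eq_root.1 h)), ih]

lemma idx_FF {j n k : ℤ} {x : Nd} (h : j ≤ idx x) : j ≤ idx (FF j n k x) := by
  induction x with
  | sp i c =>
    simp only [FF]
    split_ifs with h1
    · simp [idx]
    · exact h
  | ch x c ih =>
    simp only [FF]
    split_ifs with h1 h2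
    · simp [idx]
    · exact h
    · exact ih h

/-- on elements avoiding the zone the swap does not depend on the cut -/
lemma FF_const {j n l u k : ℤ} {x : Nd} (h : Av j n l u x) (hk : l ≤ k) (hk' : k ≤ u) :
    FF j n k x = FF j n l x := by
  induction x with
  | sp i c =>
    simp only [FF]
    by_cases hi : i = j
    · have := h (c + n) (by simp [pos, hi])
      by_cases hc : l < c + n
      · rw [if_pos ⟨hi, by omega⟩, if_pos ⟨hi, hc⟩]
      · rw [if_neg (by omega), if_neg (by omega)]
    · rw [if_neg (by tauto), if_neg (by tauto)]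
  | ch x c ih =>
    by_cases h1 : x = sp (j + 1) 0
    · subst h1
      simp only [FF, if_true]
      have := h c (by simp [pos])
      by_cases hc : l < c
      · rw [if_pos (by omega), if_pos hc]
      · rw [if_neg (by omega), if_neg hc]
    · simp only [FF]
      rw [if_neg h1, if_neg h1, ih]
      intro q hq
      apply h
      simp only [pos]
      rw [if_neg h1]; exact hq

/-- if the position is not above the cut, the swap does nothing -/
lemma FF_id {j n k : ℤ} {x : Nd} (h : ∀ q, pos j n x = some q → q ≤ k) : FF j n k x = x := by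
  induction x with
  | sp i c =>
    simp only [FF]
    rw [if_neg]
    rintro ⟨hi, hc⟩
    have := h (c + n) (by simp [pos, hi])
    omega
  | ch x c ih =>
    by_cases h1 : x = sp (j + 1) 0
    · subst h1
      simp only [FF, if_true]
      have := h c (by simp [pos])
      rw [if_neg (by omega)]
    · simp only [FF]
      rw [if_neg h1, ih]
      intro q hq
      apply h
      simp only [pos]
      rw [if_neg h1]; exact hq

/-- behaviour of one operation -/
def Ok (j n l u : ℤ) (f : Nd → Nd) (x : Nd) : Prop :=
  j ≤ idx (f x) ∧ Av j n (l + 1) (u - 1) (f x) ∧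
    ∀ k, l + 1 ≤ k → k ≤ u - 1 → f (FF j n k x) = FF j n k (f x)

lemma ok_dd {j n l u : ℤ} {x : Nd} (hx : j ≤ idx x) (h : Av j n l u x) (hl : 0 ≤ l) :
    Ok j n l u dd x := by
  refine ⟨hx, ?_, ?_⟩
  · intro q hq
    simp only [dd, pos] at hq
    split_ifs at hq with h1
    · left
      simp only [Option.some.injEq] at hq
      omega
    · rcases h q hq with h | h
      · left; omega
      · right; omega
  · intro k hk hk'
    simp only [dd, FF]
    split_ifs with h1 h2
    · omega
    · subst h1; rw [FF_root]
    · rfl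

lemma ok_ss {j n l u : ℤ} {x : Nd} (hx : j ≤ idx x) (h : Av j n l u x) :
    Ok j n l u ss x := by
  cases x with
  | sp i c =>
    refine ⟨hx, ?_, ?_⟩
    · intro q hq
      simp only [ss, pos] at hq
      split_ifs at hq with h1
      simp only [Option.some.injEq] at hq
      have := h (c + n) (by simp [pos, h1])
      omega
    · intro k hk hk'
      simp only [ss, FF]
      by_cases hi : i = j
      · have := h (c + n) (by simp [pos, hi])
        by_cases hc : k < c + n
        · rw [if_pos ⟨hi, hc⟩, if_pos ⟨hi, by omega⟩]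
          simp only [ss]
          congr 1; ring
        · rw [if_neg (by omega), if_neg (by omega)]
      · rw [if_neg (by tauto), if_neg (by tauto)]
  | ch x c =>
    refine ⟨hx, ?_, ?_⟩
    · intro q hq
      simp only [ss, pos] at hq
      split_ifs at hq with h1
      · simp only [Option.some.injEq] at hq
        have := h c (by simp [pos, h1])
        omega
      · have := h q (by simp only [pos]; rw [if_neg h1]; exact hq)
        omega
    · intro k hk hk'
      by_cases h1 : x = sp (j + 1) 0
      · subst h1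
        have := h c (by simp [pos])
        simp only [ss, FF, if_true]
        by_cases hc : k < c
        · rw [if_pos hc, if_pos (by omega)]
          simp only [ss]
          congr 1; ring
        · rw [if_neg hc, if_neg (by omega)]
      · simp only [ss, FF]
        rw [if_neg h1, if_neg h1]

lemma ok_pp {j n l u : ℤ} {x : Nd} (hx : j ≤ idx x) (h : Av j n l u x) :
    Ok j n l u pp x := by
  cases x with
  | sp i c =>
    refine ⟨hx, ?_, ?_⟩
    · intro q hq
      simp only [pp, pos] at hq
      split_ifs at hq with h1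
      simp only [Option.some.injEq] at hq
      have := h (c + n) (by simp [pos, h1])
      omega
    · intro k hk hk'
      simp only [pp, FF]
      by_cases hi : i = j
      · have := h (c + n) (by simp [pos, hi])
        by_cases hc : k < c + n
        · rw [if_pos ⟨hi, hc⟩, if_pos ⟨hi, by omega⟩]
          simp only [pp]
          congr 1; ring
        · rw [if_neg (by omega), if_neg (by omega)]
      · rw [if_neg (by tauto), if_neg (by tauto)]
  | ch x c =>
    refine ⟨hx, ?_, ?_⟩
    · intro q hq
      simp only [pp, pos] at hq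
      split_ifs at hq with h1
      · simp only [Option.some.injEq] at hq
        have := h c (by simp [pos, h1])
        omega
      · have := h q (by simp only [pos]; rw [if_neg h1]; exact hq)
        omega
    · intro k hk hk'
      by_cases h1 : x = sp (j + 1) 0
      · subst h1
        have := h c (by simp [pos])
        simp only [pp, FF, if_true]
        by_cases hc : k < c
        · rw [if_pos hc, if_pos (by omega)]
          simp only [pp]
          congr 1; ring
        · rw [if_neg hc, if_neg (by omega)]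
      · simp only [pp, FF]
        rw [if_neg h1, if_neg h1]

lemma ok_tt {j n l u : ℤ} {x : Nd} (hx : j ≤ idx x) (h : Av j n l u x) (hl : 0 ≤ l) :
    Ok j n l u tt x := by
  cases x with
  | sp i c =>
    simp only [idx] at hx
    have hij : i + 1 ≠ j := by omega
    refine ⟨by simp only [tt, idx]; omega, ?_, ?_⟩
    · intro q hq
      simp only [tt, pos] at hq
      rw [if_neg hij] at hq
      exact absurd hq (by simp)
    · intro k hk hk'
      have e1 : FF j n k (tt (sp i c)) = sp (i + 1) 0 := by
        simp only [tt, FF]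
        rw [if_neg (fun hh => hij hh.1)]
      rw [e1]
      simp only [FF]
      split_ifs with h1
      · simp only [tt]
        rw [h1.1]
      · rfl
  | ch x c =>
    refine ⟨hx, ?_, ?_⟩
    · intro q hq
      simp only [tt] at hq
      by_cases h1 : x = sp (j + 1) 0
      · subst h1
        simp [pos] at hq
      · have := h q (by simp only [pos]; rw [if_neg h1]; exact hq)
        omega
    · intro k hk hk'
      by_cases h1 : x = sp (j + 1) 0
      · subst h1
        simp only [tt, FF, if_true]
        split_ifs with h2 h3 h3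
        · omega
        · simp [tt]
        · omega
        · simp [tt]
      · simp only [tt, FF]
        rw [if_neg h1]

end Nd

open Nd

variable {α : Type}

lemma term_lemma {β : Type} (τ : Lang.Term β) : ∃ D : ℕ, ∀ j n l u : ℤ, 0 ≤ l →
    ∀ v : β → Nd, (∀ b, j ≤ idx (v b)) → (∀ b, Av j n l u (v b)) →
      j ≤ idx (τ.realize v) ∧ Av j n (l + D) (u - D) (τ.realize v) ∧
      ∀ k, l + D ≤ k → k ≤ u - D →
        τ.realize (fun b => FF j n k (v b)) = FF j n k (τ.realize v) := by
  induction τ with
  | var b =>
    refine ⟨0, fun j n l u _ v h1 h2 => ⟨h1 b, ?_, ?_⟩⟩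
    · simpa using h2 b
    · intro k _ _; rfl
  | @func m f ts ih =>
    cases f with
    | t =>
      obtain ⟨D, hD⟩ := ih 0
      refine ⟨D + 1, fun j n l u hl v h1 h2 => ?_⟩
      obtain ⟨g1, g2, g3⟩ := hD j n l u hl v h1 h2
      obtain ⟨k1, k2, k3⟩ := ok_tt g1 g2 (by omega)
      refine ⟨k1, k2.mono (by push_cast; omega) (by push_cast; omega), fun k hk hk' => ?_⟩
      push_cast at hk hk'
      have e := k3 k (by omega) (by omega)
      rw [← g3 k (by omega) (by omega)] at e
      exact e
    | d =>
      obtain ⟨D, hD⟩ := ih 0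
      refine ⟨D + 1, fun j n l u hl v h1 h2 => ?_⟩
      obtain ⟨g1, g2, g3⟩ := hD j n l u hl v h1 h2
      obtain ⟨k1, k2, k3⟩ := ok_dd g1 g2 (by omega)
      refine ⟨k1, k2.mono (by push_cast; omega) (by push_cast; omega), fun k hk hk' => ?_⟩
      push_cast at hk hk'
      have e := k3 k (by omega) (by omega)
      rw [← g3 k (by omega) (by omega)] at e
      exact e
    | s =>
      obtain ⟨D, hD⟩ := ih 0
      refine ⟨D + 1, fun j n l u hl v h1 h2 => ?_⟩
      obtain ⟨g1, g2, g3⟩ := hD j n l u hl v h1 h2
      obtain ⟨k1, k2, k3⟩ := ok_ss g1 g2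
      refine ⟨k1, k2.mono (by push_cast; omega) (by push_cast; omega), fun k hk hk' => ?_⟩
      push_cast at hk hk'
      have e := k3 k (by omega) (by omega)
      rw [← g3 k (by omega) (by omega)] at e
      exact e
    | p =>
      obtain ⟨D, hD⟩ := ih 0
      refine ⟨D + 1, fun j n l u hl v h1 h2 => ?_⟩
      obtain ⟨g1, g2, g3⟩ := hD j n l u hl v h1 h2
      obtain ⟨k1, k2, k3⟩ := ok_pp g1 g2
      refine ⟨k1, k2.mono (by push_cast; omega) (by push_cast; omega), fun k hk hk' => ?_⟩
      push_cast at hk hk'
      have e := k3 k (by omega) (by omega)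
      rw [← g3 k (by omega) (by omega)] at e
      exact e

/-- truth with quantifiers restricted to `P` -/
def RR (P : Nd → Prop) : ∀ {m : ℕ}, Lang.BoundedFormula α m → (α → Nd) → (Fin m → Nd) → Prop
  | _, .falsum, _, _ => False
  | _, .equal t₁ t₂, v, xs => t₁.realize (Sum.elim v xs) = t₂.realize (Sum.elim v xs)
  | _, .rel _ _, _, _ => False
  | _, .imp f g, v, xs => RR P f v xs → RR P g v xs
  | _, .all f, v, xs => ∀ x, P x → RR P f v (Fin.snoc xs x)

/-- the transfer statement for a formula -/
def Tr {m : ℕ} (φ : Lang.BoundedFormula α m) (D : ℕ) : Prop :=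
  ∀ j n l u : ℤ, 0 ≤ l → l + D ≤ u → ∀ (v : α → Nd) (xs : Fin m → Nd),
    (∀ b, j ≤ idx (v b)) → (∀ b, j ≤ idx (xs b)) →
    (∀ b, Av j n l u (v b)) → (∀ b, Av j n l u (xs b)) →
    RR (fun x => j ≤ idx x) φ v xs →
    RR (fun x => j ≤ idx x) φ (fun b => FF j n l (v b)) (fun b => FF j n l (xs b))

lemma av_FF {j n l u k : ℤ} {x : Nd} (h : Av j n l u x) : Av j n l u (FF j n k x) := by
  intro q hq
  rw [pos_FF] at hq
  exact h q hq

lemma Tr.iff {m : ℕ} {φ : Lang.BoundedFormula α m} {D : ℕ} (h : Tr φ D) {j n l u : ℤ} (hl : 0 ≤ l)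
    (hu : l + D ≤ u) {v : α → Nd} {xs : Fin m → Nd}
    (h1 : ∀ b, j ≤ idx (v b)) (h2 : ∀ b, j ≤ idx (xs b))
    (h3 : ∀ b, Av j n l u (v b)) (h4 : ∀ b, Av j n l u (xs b)) :
    RR (fun x => j ≤ idx x) φ v xs ↔
      RR (fun x => j ≤ idx x) φ (fun b => Nd.FF j n l (v b)) (fun b => Nd.FF j n l (xs b)) := by
  constructor
  · exact h j n l u hl hu v xs h1 h2 h3 h4
  · intro h5
    have := h j n l u hl hu _ _ (fun b => idx_FF (h1 b)) (fun b => idx_FF (h2 b))
      (fun b => av_FF (h3 b)) (fun b => av_FF (h4 b)) h5
    simpa only [FF_FF] using this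

lemma Tr.mono {m : ℕ} {φ : Lang.BoundedFormula α m} {D D' : ℕ} (h : Tr φ D) (hD : D ≤ D') :
    Tr φ D' := by
  intro j n l u hl hu
  exact h j n l u hl (by have : (D:ℤ) ≤ D' := by exact_mod_cast hD
                         omega)

lemma elim_FF {m : ℕ} (j n k : ℤ) (v : α → Nd) (xs : Fin m → Nd) :
    Sum.elim (fun b => Nd.FF j n k (v b)) (fun b => Nd.FF j n k (xs b))
      = fun b => Nd.FF j n k (Sum.elim v xs b) := by
  funext b
  cases b <;> rfl

lemma snoc_FF {m : ℕ} (j n k : ℤ) (xs : Fin m → Nd) (x : Nd) :
    (Fin.snoc (fun b => Nd.FF j n k (xs b)) (Nd.FF j n k x) : Fin (m + 1) → Nd)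
      = fun b => Nd.FF j n k ((Fin.snoc xs x : Fin (m + 1) → Nd) b) := by
  funext b
  refine Fin.lastCases ?_ (fun i => ?_) b
  · simp
  · simp

lemma snoc_forall {m : ℕ} {P : Nd → Prop} {xs : Fin m → Nd} {x : Nd} (h : ∀ b, P (xs b)) (hx : P x) :
    ∀ b, P ((Fin.snoc xs x : Fin (m + 1) → Nd) b) := by
  intro b
  refine Fin.lastCases ?_ (fun i => ?_) b
  · simpa using hx
  · simpa using h i

lemma snoc_idx {m : ℕ} {j : ℤ} {xs : Fin m → Nd} {x : Nd} (h : ∀ b, j ≤ idx (xs b))
    (hx : j ≤ idx x) : ∀ b, j ≤ idx ((Fin.snoc xs x : Fin (m + 1) → Nd) b) :=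
  snoc_forall (P := fun z => j ≤ idx z) h hx

/-- every formula satisfies the transfer statement for some depth -/
lemma exists_Tr {m : ℕ} (φ : Lang.BoundedFormula α m) : ∃ D, Tr φ D := by
  induction φ with
  | falsum => exact ⟨0, fun _ _ _ _ _ _ _ _ _ _ _ _ h => h⟩
  | equal t₁ t₂ =>
    obtain ⟨D1, hD1⟩ := term_lemma t₁
    obtain ⟨D2, hD2⟩ := term_lemma t₂
    refine ⟨2 * (D1 + D2), fun j n l u hl hu v xs h1 h2 h3 h4 h5 => ?_⟩
    push_cast at hu
    have hv1 : ∀ b, j ≤ idx (Sum.elim v xs b) := by
      intro b; cases b with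
      | inl b => exact h1 b
      | inr b => exact h2 b
    have hv2 : ∀ b, Av j n l u (Sum.elim v xs b) := by
      intro b; cases b with
      | inl b => exact h3 b
      | inr b => exact h4 b
    obtain ⟨-, -, e1⟩ := hD1 j n l u hl _ hv1 hv2
    obtain ⟨-, -, e2⟩ := hD2 j n l u hl _ hv1 hv2
    have hF : (fun b => Nd.FF j n l (Sum.elim v xs b))
        = fun b => Nd.FF j n (l + (D1 + D2)) (Sum.elim v xs b) := by
      funext b
      rw [FF_const (hv2 b) (show l ≤ l + (D1 + D2) by omega) (by omega)]
    simp only [RR] at h5 ⊢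
    rw [elim_FF, hF, e1 _ (by omega) (by omega), e2 _ (by omega) (by omega), h5]
  | rel R ts => exact R.elim
  | imp f g ihf ihg =>
    obtain ⟨D1, hD1⟩ := ihf
    obtain ⟨D2, hD2⟩ := ihg
    refine ⟨D1 + D2, fun j n l u hl hu v xs h1 h2 h3 h4 h5 h6 => ?_⟩
    push_cast at hu
    rw [← hD1.iff hl (by omega) h1 h2 h3 h4] at h6
    exact hD2 j n l u hl (by omega) v xs h1 h2 h3 h4 (h5 h6)
  | all f ih =>
    obtain ⟨D, hD⟩ := ih
    refine ⟨2 * D + 2, fun j n l u hl hu v xs h1 h2 h3 h4 h5 => ?_⟩
    push_cast at hu
    intro y hy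
    -- choose a subinterval avoided by `y`
    obtain ⟨l', u', hl', hu', hlu, hyAv⟩ : ∃ l' u' : ℤ, l ≤ l' ∧ u' ≤ u ∧ l' + D ≤ u' ∧
        Av j n l' u' y := by
      cases hq : pos j n y with
      | none =>
        exact ⟨l, u, le_refl _, le_refl _, by omega, fun q hq' => by rw [hq] at hq'; cases hq'⟩
      | some q =>
        by_cases h6 : q ≤ l ∨ u < q
        · exact ⟨l, u, le_refl _, le_refl _, by omega, fun q' hq' => by
            rw [hq] at hq'; cases hq'; exact h6⟩
        · by_cases h7 : l + D ≤ q - 1
          · exact ⟨l, q - 1, le_refl _, by omega, h7, fun q' hq' => by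
              rw [hq] at hq'; cases hq'; right; omega⟩
          · exact ⟨q, u, by omega, le_refl _, by omega, fun q' hq' => by
              rw [hq] at hq'; cases hq'; left; omega⟩
    have h6 := h5 (Nd.FF j n l' y) (idx_FF hy)
    have h7 := hD j n l' u' (by omega) hlu v (Fin.snoc xs (Nd.FF j n l' y)) h1
      (snoc_idx h2 (idx_FF hy)) (fun b => (h3 b).mono hl' hu')
      (snoc_forall (P := Av j n l' u') (fun b => (h4 b).mono hl' hu') (av_FF hyAv)) h6
    rw [← snoc_FF, FF_FF] at h7
    have e1 : (fun b => Nd.FF j n l' (v b)) = fun b => Nd.FF j n l (v b) := by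
      funext b; exact FF_const (h3 b) hl' (by omega)
    have e2 : (fun b => Nd.FF j n l' (xs b)) = fun b => Nd.FF j n l (xs b) := by
      funext b; exact FF_const (h4 b) hl' (by omega)
    rw [e1, e2] at h7
    exact h7

/-- positions of elements whose index is larger than `j` do not depend on `n` -/
lemma pos_indep {j : ℤ} {x : Nd} (h : j + 1 ≤ idx x) (n n' : ℤ) : pos j n x = pos j n' x := by
  induction x with
  | sp i c =>
    simp only [idx] at h
    simp only [pos]
    rw [if_neg (by omega), if_neg (by omega)]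
  | ch x c ih =>
    simp only [pos]
    split_ifs
    · rfl
    · exact ih h

/-- positions of elements of index `j` -/
lemma pos_of_idx_eq {j : ℤ} {x : Nd} (h : idx x = j) : ∃ c, ∀ n, pos j n x = some (c + n) := by
  induction x with
  | sp i c => exact ⟨c, fun n => by simp only [idx] at h; simp [pos, h]⟩
  | ch x c ih =>
    obtain ⟨c', hc'⟩ := ih h
    refine ⟨c', fun n => ?_⟩
    simp only [pos]
    rw [if_neg, hc']
    rintro rfl
    simp only [idx] at h
    omega

/-- if the position is above the cut, the swap moves an element of index `j` up -/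
lemma idx_FF_of_pos {j n k : ℤ} {x : Nd} (h : idx x = j) (hp : ∀ q, pos j n x = some q → k < q) :
    j + 1 ≤ idx (Nd.FF j n k x) := by
  induction x with
  | sp i c =>
    simp only [idx] at h
    have := hp (c + n) (by simp [pos, h])
    simp only [Nd.FF]
    rw [if_pos ⟨h, this⟩]
    simp [idx]
  | ch x c ih =>
    have hx : x ≠ sp (j + 1) 0 := by
      rintro rfl
      simp only [idx] at h
      omega
    simp only [Nd.FF]
    rw [if_neg hx]
    apply ih h
    intro q hq
    apply hp
    simp only [pos]
    rw [if_neg hx]; exact hq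

/-- one step of the elementary chain -/
lemma step {m : ℕ} [Finite α] (j : ℤ) (φ : Lang.BoundedFormula α m) :
    ∀ (v : α → Nd) (xs : Fin m → Nd), (∀ b, j + 1 ≤ idx (v b)) → (∀ b, j + 1 ≤ idx (xs b)) →
    (RR (fun x => j ≤ idx x) φ v xs ↔ RR (fun x => j + 1 ≤ idx x) φ v xs) := by
  induction φ with
  | falsum => intro v xs _ _; rfl
  | equal t₁ t₂ => intro v xs _ _; rfl
  | rel R ts => exact R.elim
  | imp f g ihf ihg =>
    intro v xs h1 h2
    simp only [RR]
    rw [ihf v xs h1 h2, ihg v xs h1 h2]
  | all f ih =>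
    intro v xs h1 h2
    constructor
    · intro h x hx
      rw [← ih v _ h1 (snoc_idx h2 hx)]
      exact h x (by omega)
    · intro h x hx
      by_contra hcon
      -- `x` has index `j`
      have hxj : idx x = j := by
        by_contra hne
        have hx' : j + 1 ≤ idx x := by omega
        apply hcon
        rw [ih v _ h1 (snoc_idx h2 hx')]
        exact h x hx'
      obtain ⟨D, hD⟩ := exists_Tr f
      obtain ⟨c, hc⟩ := pos_of_idx_eq hxj
      -- a bound for the positions of the parameters
      obtain ⟨l, hl0, hlv, hlx⟩ : ∃ l : ℤ, 0 ≤ l ∧ (∀ b q, pos j 0 (v b) = some q → q ≤ l) ∧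
          (∀ b q, pos j 0 (xs b) = some q → q ≤ l) := by
        have h3 : (Set.range (fun b => (pos j 0 (v b)).getD 0)).Finite := Set.finite_range _
        have h4 : (Set.range (fun b => (pos j 0 (xs b)).getD 0)).Finite := Set.finite_range _
        obtain ⟨l1, hl1⟩ := h3.bddAbove
        obtain ⟨l2, hl2⟩ := h4.bddAbove
        refine ⟨max 0 (max l1 l2), le_max_left _ _, fun b q hq => ?_, fun b q hq => ?_⟩
        · have := hl1 ⟨b, rfl⟩
          simp only [hq, Option.getD_some] at this
          exact this.trans ((le_max_left _ _).trans (le_max_right _ _))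
        · have := hl2 ⟨b, rfl⟩
          simp only [hq, Option.getD_some] at this
          exact this.trans ((le_max_right _ _).trans (le_max_right _ _))
      set n : ℤ := l + D + 1 - c with hn
      have hposx : pos j n x = some (l + D + 1) := by rw [hc]; congr 1; omega
      have hv' : ∀ b q, pos j n (v b) = some q → q ≤ l := fun b q hq =>
        hlv b q (by rw [← hq]; exact pos_indep (h1 b) _ _)
      have hx' : ∀ b q, pos j n (xs b) = some q → q ≤ l := fun b q hq =>
        hlx b q (by rw [← hq]; exact pos_indep (h2 b) _ _)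
      have h5 : ∀ b, Nd.FF j n l (v b) = v b := fun b => FF_id (hv' b)
      have h6 : ∀ b, Nd.FF j n l (xs b) = xs b := fun b => FF_id (hx' b)
      have hAvx : Av j n l (l + D) x := by
        intro q hq
        rw [hposx] at hq
        simp only [Option.some.injEq] at hq
        right; omega
      have h7 := hD.iff (n := n) hl0 (le_refl (l + D)) (v := v) (xs := Fin.snoc xs x)
        (fun b => by have := h1 b; omega)
        (snoc_idx (fun b => by have := h2 b; omega) hx)
        (fun b q hq => Or.inl (hv' b q hq))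
        (snoc_forall (P := Av j n l (l + D)) (fun b q hq => Or.inl (hx' b q hq)) hAvx)
      rw [← snoc_FF] at h7
      simp only [h5, h6] at h7
      apply hcon
      rw [h7]
      have h8 : j + 1 ≤ idx (Nd.FF j n l x) := idx_FF_of_pos hxj (fun q hq => by
        rw [hposx] at hq
        simp only [Option.some.injEq] at hq
        omega)
      rw [ih v _ h1 (snoc_idx h2 h8)]
      exact h _ h8

/-- comparison of two levels -/
lemma steps {m : ℕ} [Finite α] (φ : Lang.BoundedFormula α m) (k : ℕ) (j : ℤ)
    (v : α → Nd) (xs : Fin m → Nd) (h1 : ∀ b, j + k ≤ idx (v b)) (h2 : ∀ b, j + k ≤ idx (xs b)) :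
    (RR (fun x => j ≤ idx x) φ v xs ↔ RR (fun x => j + k ≤ idx x) φ v xs) := by
  induction k generalizing j with
  | zero => simp
  | succ k ih =>
    push_cast at h1 h2 ⊢
    rw [step j φ v xs (fun b => by have := h1 b; omega) (fun b => by have := h2 b; omega),
      ih (j + 1) (fun b => by have := h1 b; omega) (fun b => by have := h2 b; omega)]
    have : j + 1 + (k:ℤ) = j + (k + 1) := by ring
    rw [this]

/-- every level is elementary in the whole structure -/
lemma level {m : ℕ} [Finite α] (φ : Lang.BoundedFormula α m) :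
    ∀ (j : ℤ) (v : α → Nd) (xs : Fin m → Nd), (∀ b, j ≤ idx (v b)) → (∀ b, j ≤ idx (xs b)) →
    (RR (fun _ => True) φ v xs ↔ RR (fun x => j ≤ idx x) φ v xs) := by
  induction φ with
  | falsum => intro j v xs _ _; rfl
  | equal t₁ t₂ => intro j v xs _ _; rfl
  | rel R ts => exact R.elim
  | imp f g ihf ihg =>
    intro j v xs h1 h2
    simp only [RR]
    rw [ihf j v xs h1 h2, ihg j v xs h1 h2]
  | all f ih =>
    intro j v xs h1 h2
    constructor
    · intro h x hx
      rw [← ih j v _ h1 (snoc_idx h2 hx)]
      exact h x trivial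
    · intro h x _
      -- go to a lower level containing `x`
      obtain ⟨k, hk⟩ : ∃ k : ℕ, j - k ≤ idx x := ⟨(j - idx x).toNat, by omega⟩
      rw [ih (j - k) v _ (fun b => by have := h1 b; omega)
        (snoc_idx (fun b => by have := h2 b; omega) hk)]
      have h3 := steps (.all f) k (j - k) v xs (fun b => by have := h1 b; omega)
        (fun b => by have := h2 b; omega)
      rw [sub_add_cancel] at h3
      exact h3.2 h x hk

/-- the levels as substructures -/
def SS (j : ℤ) : Lang.Substructure Nd where
  carrier := {x | j ≤ idx x}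
  fun_mem := by
    intro n f xs h
    have h0 : ∀ {i}, j ≤ idx (xs i) := fun {i} => h i
    cases f with
    | t =>
      show j ≤ idx (tt (xs 0))
      have := h0 (i := 0)
      cases hx : xs 0 with
      | sp i k => rw [hx] at this; simp only [idx] at this; simp only [tt, idx]; omega
      | ch x k => rw [hx] at this; exact this
    | d => exact h0 (i := 0)
    | s =>
      show j ≤ idx (ss (xs 0))
      have := h0 (i := 0)
      cases hx : xs 0 with
      | sp i k => rw [hx] at this; exact this
      | ch x k => rw [hx] at this; exact this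
    | p =>
      show j ≤ idx (pp (xs 0))
      have := h0 (i := 0)
      cases hx : xs 0 with
      | sp i k => rw [hx] at this; exact this
      | ch x k => rw [hx] at this; exact this

lemma realize_SS (j : ℤ) {m : ℕ} (φ : Lang.BoundedFormula α m) :
    ∀ (v : α → SS j) (xs : Fin m → SS j),
      (φ.Realize v xs ↔ RR (fun x => j ≤ idx x) φ (fun b => (v b : Nd)) (fun b => (xs b : Nd))) := by
  induction φ with
  | falsum => intro v xs; rfl
  | equal t₁ t₂ =>
    intro v xs
    simp only [BoundedFormula.Realize, RR]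
    have e : ∀ t : Lang.Term (α ⊕ Fin _), ((t.realize (Sum.elim v xs) : SS j) : Nd)
        = t.realize (Sum.elim (fun b => (v b : Nd)) (fun b => (xs b : Nd))) := by
      intro t
      have h1 := HomClass.realize_term (SS j).subtype (t := t) (v := Sum.elim v xs)
      have h2 : (fun b => ((SS j).subtype (Sum.elim v xs b) : Nd))
          = Sum.elim (fun b => (v b : Nd)) (fun b => (xs b : Nd)) := by
        funext b; cases b <;> rfl
      have h3 : (⇑(SS j).subtype ∘ Sum.elim v xs)
          = Sum.elim (fun b => (v b : Nd)) (fun b => (xs b : Nd)) := h2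
      rw [h3] at h1
      exact h1.symm
    rw [← e, ← e]
    exact Subtype.ext_iff
  | rel R ts => exact R.elim
  | imp f g ihf ihg =>
    intro v xs
    simp only [BoundedFormula.Realize, RR]
    rw [ihf, ihg]
  | all f ih =>
    intro v xs
    simp only [BoundedFormula.Realize, RR]
    have e : ∀ x : SS j, (fun b => ((Fin.snoc xs x : Fin _ → SS j) b : Nd))
        = Fin.snoc (fun b => (xs b : Nd)) (x : Nd) := by
      intro x
      funext b
      refine Fin.lastCases ?_ (fun i => ?_) b
      · simp
      · simp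
    constructor
    · intro h x hx
      have := (ih v (Fin.snoc xs ⟨x, hx⟩)).1 (h ⟨x, hx⟩)
      rw [e] at this
      exact this
    · intro h x
      rw [ih, e]
      exact h x x.2

lemma realize_Nd {m : ℕ} (φ : Lang.BoundedFormula α m) :
    ∀ (v : α → Nd) (xs : Fin m → Nd), (φ.Realize v xs ↔ RR (fun _ => True) φ v xs) := by
  induction φ with
  | falsum => intro v xs; rfl
  | equal t₁ t₂ => intro v xs; rfl
  | rel R ts => exact R.elim
  | imp f g ihf ihg =>
    intro v xs
    simp only [BoundedFormula.Realize, RR]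
    rw [ihf, ihg]
  | all f ih =>
    intro v xs
    simp only [BoundedFormula.Realize, RR]
    exact ⟨fun h x _ => (ih _ _).1 (h x), fun h x => (ih _ _).2 (h x trivial)⟩

/-- shift along the spine -/
def sh (c : ℤ) : Nd → Nd
  | sp i k => sp (i + c) k
  | ch x k => ch (sh c x) k

lemma sh_sh (c : ℤ) (x : Nd) : sh c (sh (-c) x) = x := by
  induction x with
  | sp i k => simp [sh]
  | ch x k ih => simp [sh, ih]

lemma sh_inj (c : ℤ) : Function.Injective (sh c) := by
  intro x y h
  have h1 := sh_sh (-c) x
  have h2 := sh_sh (-c) y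
  rw [neg_neg] at h1 h2
  rw [← h1, ← h2, h]

lemma idx_sh (c : ℤ) (x : Nd) : idx (sh c x) = idx x + c := by
  induction x with
  | sp i k => rfl
  | ch x k ih => exact ih

lemma term_sh {β : Type} (τ : Lang.Term β) (c : ℤ) (v : β → Nd) :
    τ.realize (fun b => sh c (v b)) = sh c (τ.realize v) := by
  induction τ with
  | var b => rfl
  | @func m f ts ih =>
    have h0 := fun i => ih i
    cases f with
    | t =>
      show tt ((ts 0).realize (fun b => sh c (v b))) = sh c (tt ((ts 0).realize v))
      rw [h0]
      cases (ts 0).realize v with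
      | sp i k => simp only [sh, tt]; congr 1; ring
      | ch x k => rfl
    | d =>
      show dd ((ts 0).realize (fun b => sh c (v b))) = sh c (dd ((ts 0).realize v))
      rw [h0]; rfl
    | s =>
      show ss ((ts 0).realize (fun b => sh c (v b))) = sh c (ss ((ts 0).realize v))
      rw [h0]
      cases (ts 0).realize v <;> rfl
    | p =>
      show pp ((ts 0).realize (fun b => sh c (v b))) = sh c (pp ((ts 0).realize v))
      rw [h0]
      cases (ts 0).realize v <;> rfl

lemma RR_sh {m : ℕ} (φ : Lang.BoundedFormula α m) (c j : ℤ) :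
    ∀ (v : α → Nd) (xs : Fin m → Nd),
    (RR (fun x => j ≤ idx x) φ v xs ↔
      RR (fun x => j + c ≤ idx x) φ (fun b => sh c (v b)) (fun b => sh c (xs b))) := by
  induction φ with
  | falsum => intro v xs; rfl
  | equal t₁ t₂ =>
    intro v xs
    simp only [RR]
    have e : Sum.elim (fun b => sh c (v b)) (fun b => sh c (xs b))
        = fun b => sh c (Sum.elim v xs b) := by funext b; cases b <;> rfl
    rw [e, term_sh, term_sh]
    exact (sh_inj c).eq_iff.symm
  | rel R ts => exact R.elim
  | imp f g ihf ihg =>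
    intro v xs
    simp only [RR]
    rw [ihf, ihg]
  | all f ih =>
    intro v xs
    simp only [RR]
    have e : ∀ x : Nd, (fun b => sh c ((Fin.snoc xs x : Fin _ → Nd) b))
        = Fin.snoc (fun b => sh c (xs b)) (sh c x) := by
      intro x
      funext b
      refine Fin.lastCases ?_ (fun i => ?_) b
      · simp
      · simp
    constructor
    · intro h x hx
      have h1 : j ≤ idx (sh (-c) x) := by rw [idx_sh]; omega
      have h2 := (ih v (Fin.snoc xs (sh (-c) x))).1 (h _ h1)
      rw [e, sh_sh] at h2
      exact h2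
    · intro h x hx
      rw [ih, e]
      apply h
      rw [idx_sh]; omega

lemma exists_lower {ι : Type} [Finite ι] (v : ι → Nd) : ∃ j : ℤ, ∀ b, j ≤ idx (v b) := by
  obtain ⟨j, hj⟩ := (Set.finite_range (fun b => idx (v b))).bddBelow
  exact ⟨j, fun b => hj ⟨b, rfl⟩⟩

lemma isotypic_main : Isotypic Lang (SS 0) Nd := by
  intro n
  constructor
  · intro a
    refine ⟨fun b => (a b : Nd), ?_⟩
    ext φ
    show φ.Realize _ ↔ φ.Realize _
    unfold Formula.Realize
    rw [realize_Nd, realize_SS, level φ 0 _ _ (fun b => (a b).2) (fun b => b.elim0)]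
    apply iff_of_eq
    congr 1
    funext b; exact b.elim0
  · intro a
    obtain ⟨j, hj⟩ := exists_lower a
    refine ⟨fun b => ⟨sh (-j) (a b), by
      show 0 ≤ idx (sh (-j) (a b))
      rw [idx_sh]; have := hj b; omega⟩, ?_⟩
    ext φ
    show φ.Realize _ ↔ φ.Realize _
    unfold Formula.Realize
    rw [realize_Nd, realize_SS, level φ j _ _ hj (fun b => b.elim0), RR_sh φ (-j) j]
    rw [add_neg_cancel]
    apply iff_of_eq
    congr 1
    funext b; exact b.elim0

lemma zero_mem_SS : sp 0 0 ∈ SS 0 := le_refl (0:ℤ)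

lemma closure_SS : Substructure.closure Lang {(⟨sp 0 0, zero_mem_SS⟩ : SS 0)} = ⊤ := by
  rw [eq_top_iff]
  set C := Substructure.closure Lang {(⟨sp 0 0, zero_mem_SS⟩ : SS 0)} with hC
  have ht : ∀ x (h : 0 ≤ idx x) (h' : 0 ≤ idx (tt x)), (⟨x, h⟩ : SS 0) ∈ C →
      (⟨tt x, h'⟩ : SS 0) ∈ C := by
    intro x h h' hx
    exact C.fun_mem Fn.t (fun _ => ⟨x, h⟩) (fun _ => hx)
  have hd : ∀ x (h : 0 ≤ idx x) (h' : 0 ≤ idx (dd x)), (⟨x, h⟩ : SS 0) ∈ C →
      (⟨dd x, h'⟩ : SS 0) ∈ C := by
    intro x h h' hx
    exact C.fun_mem Fn.d (fun _ => ⟨x, h⟩) (fun _ => hx)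
  have hs : ∀ x (h : 0 ≤ idx x) (h' : 0 ≤ idx (ss x)), (⟨x, h⟩ : SS 0) ∈ C →
      (⟨ss x, h'⟩ : SS 0) ∈ C := by
    intro x h h' hx
    exact C.fun_mem Fn.s (fun _ => ⟨x, h⟩) (fun _ => hx)
  have hp : ∀ x (h : 0 ≤ idx x) (h' : 0 ≤ idx (pp x)), (⟨x, h⟩ : SS 0) ∈ C →
      (⟨pp x, h'⟩ : SS 0) ∈ C := by
    intro x h h' hx
    exact C.fun_mem Fn.p (fun _ => ⟨x, h⟩) (fun _ => hx)
  have hspine : ∀ (i : ℕ) (h : 0 ≤ idx (sp (i:ℤ) 0)), (⟨sp (i:ℤ) 0, h⟩ : SS 0) ∈ C := by
    intro i
    induction i with
    | zero => intro h; exact Substructure.subset_closure rfl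
    | succ i ih =>
      intro h
      have h0 : 0 ≤ idx (sp (i:ℤ) 0) := by simp only [idx]; omega
      have := ht (sp (i:ℤ) 0) h0 (by simp only [tt, idx]; omega) (ih h0)
      simpa [tt] using this
  have hchain : ∀ (g : ℤ → Nd) (hg : ∀ k, 0 ≤ idx (g k)), (∀ k, ss (g k) = g (k + 1)) →
      (∀ k, pp (g k) = g (k - 1)) → (⟨g 0, hg 0⟩ : SS 0) ∈ C → ∀ k, (⟨g k, hg k⟩ : SS 0) ∈ C := by
    intro g hg h1 h2 h0 k
    induction k using Int.induction_on with
    | zero => exact h0
    | succ k ih =>
      have := hs (g k) (hg k) (by rw [h1]; exact hg _) ih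
      simpa [h1] using this
    | pred k ih =>
      have := hp (g (-k)) (hg (-k)) (by rw [h2]; exact hg _) ih
      simpa [h2] using this
  have hall : ∀ x (h : 0 ≤ idx x), (⟨x, h⟩ : SS 0) ∈ C := by
    intro x
    induction x with
    | sp i k =>
      intro h
      obtain ⟨i', rfl⟩ := Int.eq_ofNat_of_zero_le (show 0 ≤ i from h)
      exact hchain (fun k => sp (i':ℤ) k) (fun _ => h) (fun _ => rfl) (fun _ => rfl)
        (hspine i' h) k
    | ch x k ih =>
      intro h
      exact hchain (fun k => ch x k) (fun _ => h) (fun _ => rfl) (fun _ => rfl)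
        (hd x h h (ih h)) k
  intro x _
  exact hall x x.2

lemma not_FG : ¬ Structure.FG Lang Nd := by
  intro h
  obtain ⟨S, hS, hcl⟩ := Structure.fg_iff.1 h
  obtain ⟨j, hj⟩ := (hS.image idx).bddBelow
  have h1 : Substructure.closure Lang S ≤ SS j := by
    rw [Substructure.closure_le]
    intro x hx
    exact hj ⟨x, hx, rfl⟩
  have h2 : sp (j - 1) 0 ∈ SS j := h1 (by rw [hcl]; trivial)
  have h3 : j ≤ j - 1 := h2
  omega

theorem main : ∃ (L : FirstOrder.Language.{0, 0}) (H₁ H₂ : Type) (_ : L.Structure H₁)
    (_ : L.Structure H₂),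
    (∀ n, IsEmpty (L.Relations n)) ∧ (∀ n, n ≠ 1 → IsEmpty (L.Functions n)) ∧
    (∀ n, Finite (L.Functions n)) ∧
    Isotypic L H₁ H₂ ∧
    (∃ a : H₁, Substructure.closure L {a} = ⊤) ∧ ¬ Structure.FG L H₂ := by
  refine ⟨Lang, SS 0, Nd, inferInstance, inferInstance, fun n => ⟨fun r => r.elim⟩, ?_, ?_,
    isotypic_main, ⟨_, closure_SS⟩, not_FG⟩
  · intro n hn
    constructor
    intro f
    cases f <;> exact hn rfl
  · intro n
    by_cases hn : n = 1
    · subst hn
      have : Function.Surjective (fun i : Fin 4 =>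
          (match i with | 0 => Fn.t | 1 => Fn.d | 2 => Fn.s | 3 => Fn.p : Fn 1)) := by
        intro f
        cases f with
        | t => exact ⟨0, rfl⟩
        | d => exact ⟨1, rfl⟩
        | s => exact ⟨2, rfl⟩
        | p => exact ⟨3, rfl⟩
      exact Finite.of_surjective _ this
    · have : IsEmpty (Lang.Functions n) := ⟨fun f => by cases f <;> exact hn rfl⟩
      infer_instance

end Pool.Agent.Helper7.Isotypic
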